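import Mathlib

/-! Turán's construction: no `K_4^3`, no four vertices with exactly one edge, and about `5/9` of all
triples (helper42's project, this part by helper20). -/

set_option autoImplicit false
open Finset

namespace Pool.Agent.H42SW

/-- three different classes, or two vertices in a class and one in the next class -/
def tch (a b d : Fin 3) : Prop :=
  (a ≠ b ∧ a ≠ d ∧ b ≠ d) ∨ (a = b ∧ d = a + 1) ∨ (a = d ∧ b = a + 1) ∨ (b = d ∧ a = b + 1)

instance (a b d : Fin 3) : Decidable (tch a b d) := by unfold tch; infer_instance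

theorem tch_sym : ∀ a b d : Fin 3, (tch b a d ↔ tch a b d) ∧ (tch a d b ↔ tch a b d) ∧
    (tch b d a ↔ tch a b d) ∧ (tch d a b ↔ tch a b d) ∧ (tch d b a ↔ tch a b d) := by
  decide

theorem tch_four : ∀ a b d e : Fin 3, tch a b d → tch a b e → tch a d e → tch b d e → False := by
  decide

theorem tch_one : ∀ a b d e : Fin 3, tch a b d → tch a b e ∨ tch a d e ∨ tch b d e := by
  decide

section
variable {n : ℕ}

/-- the six orders of three vertices -/
theorem six {α : Type} [DecidableEq α] {x y z u v w : α} (hxy : x ≠ y) (hxz : x ≠ z) (hyz : y ≠ z)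
    (h : ({u, v, w} : Finset α) = {x, y, z}) :
    (u = x ∧ v = y ∧ w = z) ∨ (u = x ∧ v = z ∧ w = y) ∨ (u = y ∧ v = x ∧ w = z) ∨
    (u = y ∧ v = z ∧ w = x) ∨ (u = z ∧ v = x ∧ w = y) ∨ (u = z ∧ v = y ∧ w = x) := by
  have hu : u = x ∨ u = y ∨ u = z := by
    have : u ∈ ({x, y, z} : Finset α) := by rw [← h]; simp
    simpa using this
  have hv : v = x ∨ v = y ∨ v = z := by
    have : v ∈ ({x, y, z} : Finset α) := by rw [← h]; simp
    simpa using this
  have hw : w = x ∨ w = y ∨ w = z := by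
    have : w ∈ ({x, y, z} : Finset α) := by rw [← h]; simp
    simpa using this
  have hx : x = u ∨ x = v ∨ x = w := by
    have : x ∈ ({u, v, w} : Finset α) := by rw [h]; simp
    simpa using this
  have hy : y = u ∨ y = v ∨ y = w := by
    have : y ∈ ({u, v, w} : Finset α) := by rw [h]; simp
    simpa using this
  have hz : z = u ∨ z = v ∨ z = w := by
    have : z ∈ ({u, v, w} : Finset α) := by rw [h]; simp
    simpa using this
  rcases hu with rfl | rfl | rfl <;> rcases hv with rfl | rfl | rfl <;>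
    rcases hw with rfl | rfl | rfl <;> simp_all <;>
    rcases hz with hz | hz <;> first
      | exact hxz hz.symm
      | exact hyz hz.symm
      | (rcases hz with hz | hz <;> first
          | exact hxz hz.symm
          | exact hyz hz.symm)

/-- the relation of the construction -/
def Rl (c : Fin n → Fin 3) (x y z : Fin n) : Prop :=
  (x ≠ y ∧ x ≠ z ∧ y ≠ z) ∧ tch (c x) (c y) (c z)

instance (c : Fin n → Fin 3) (x y z : Fin n) : Decidable (Rl c x y z) := by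
  unfold Rl; infer_instance

/-- the construction -/
def TG (c : Fin n → Fin 3) : Finset (Finset (Fin n)) :=
  ((univ : Finset (Fin n × Fin n × Fin n)).filter fun t => Rl c t.1 t.2.1 t.2.2).image
    fun t => {t.1, t.2.1, t.2.2}

theorem TG_card3 (c : Fin n → Fin 3) : ∀ e ∈ TG c, e.card = 3 := by
  intro e he
  obtain ⟨t, ht, rfl⟩ := mem_image.1 he
  obtain ⟨⟨h1, h2, h3⟩, _⟩ := (mem_filter.1 ht).2
  exact card_eq_three.2 ⟨_, _, _, h1, h2, h3, rfl⟩

theorem mem_TG (c : Fin n → Fin 3) (x y z : Fin n) : ({x, y, z} : Finset (Fin n)) ∈ TG c ↔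
    Rl c x y z := by
  constructor
  · intro h
    obtain ⟨⟨u, v, w⟩, ht, he⟩ := mem_image.1 h
    obtain ⟨⟨h1, h2, h3⟩, h4⟩ := (mem_filter.1 ht).2
    dsimp only at h1 h2 h3 h4 he
    obtain ⟨s1, s2, s3, s4, s5⟩ := tch_sym (c u) (c v) (c w)
    rcases six h1 h2 h3 he.symm with ⟨rfl, rfl, rfl⟩ | ⟨rfl, rfl, rfl⟩ | ⟨rfl, rfl, rfl⟩ |
      ⟨rfl, rfl, rfl⟩ | ⟨rfl, rfl, rfl⟩ | ⟨rfl, rfl, rfl⟩
    · exact ⟨⟨h1, h2, h3⟩, h4⟩
    · exact ⟨⟨h2, h1, h3.symm⟩, s2.2 h4⟩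
    · exact ⟨⟨h1.symm, h3, h2⟩, s1.2 h4⟩
    · exact ⟨⟨h3, h1.symm, h2.symm⟩, s3.2 h4⟩
    · exact ⟨⟨h2.symm, h3.symm, h1⟩, s4.2 h4⟩
    · exact ⟨⟨h3.symm, h2.symm, h1.symm⟩, s5.2 h4⟩
  · intro h
    exact mem_image.2 ⟨(x, y, z), mem_filter.2 ⟨mem_univ _, h⟩, rfl⟩

theorem TG_free (c : Fin n → Fin 3) : ∀ S : Finset (Fin n), S.card = 4 →
    ∃ e, e ⊆ S ∧ e.card = 3 ∧ e ∉ TG c := by
  intro S hS
  by_contra hcon
  push Not at hcon
  obtain ⟨x, T, hxT, rfl, hT⟩ := Finset.card_eq_succ.1 hS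
  obtain ⟨y, z, w, hyz, hyw, hzw, rfl⟩ := Finset.card_eq_three.1 hT
  have hx : x ≠ y ∧ x ≠ z ∧ x ≠ w := by simpa using hxT
  obtain ⟨hxy, hxz, hxw⟩ := hx
  have mk : ∀ a b d : Fin n, a ≠ b → a ≠ d → b ≠ d → a ∈ insert x ({y, z, w} : Finset (Fin n)) →
      b ∈ insert x ({y, z, w} : Finset (Fin n)) → d ∈ insert x ({y, z, w} : Finset (Fin n)) →
      tch (c a) (c b) (c d) := by
    intro a b d h1 h2 h3 ha hb hd
    have hsub : ({a, b, d} : Finset (Fin n)) ⊆ insert x {y, z, w} := by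
      intro t ht
      rw [mem_insert, mem_insert, mem_singleton] at ht
      rcases ht with rfl | rfl | rfl <;> assumption
    have := hcon {a, b, d} hsub (card_eq_three.2 ⟨a, b, d, h1, h2, h3, rfl⟩)
    exact ((mem_TG c a b d).1 this).2
  exact tch_four (c x) (c y) (c z) (c w)
    (mk x y z hxy hxz hyz (by simp) (by simp) (by simp))
    (mk x y w hxy hxw hyw (by simp) (by simp) (by simp))
    (mk x z w hxz hxw hzw (by simp) (by simp) (by simp))
    (mk y z w hyz hyw hzw (by simp) (by simp) (by simp))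

theorem TG_one (c : Fin n → Fin 3) (x y z w : Fin n) (h : ({x, y, z} : Finset (Fin n)) ∈ TG c)
    (h1 : ({x, y, w} : Finset (Fin n)) ∉ TG c) (h2 : ({x, z, w} : Finset (Fin n)) ∉ TG c)
    (h3 : ({y, z, w} : Finset (Fin n)) ∉ TG c) : False := by
  obtain ⟨⟨hxy, hxz, hyz⟩, ht⟩ := (mem_TG c x y z).1 h
  by_cases e1 : w = x
  · subst e1
    apply h3
    have : ({y, z, w} : Finset (Fin n)) = {w, y, z} := by ext t; simp; tauto
    rw [this]
    exact h
  by_cases e2 : w = y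
  · subst e2
    apply h2
    have : ({x, z, w} : Finset (Fin n)) = {x, w, z} := by ext t; simp; tauto
    rw [this]
    exact h
  by_cases e3 : w = z
  · subst e3
    exact h1 h
  rw [mem_TG] at h1 h2 h3
  rcases tch_one (c x) (c y) (c z) (c w) ht with k | k | k
  · exact h1 ⟨⟨hxy, Ne.symm e1, Ne.symm e2⟩, k⟩
  · exact h2 ⟨⟨hxz, Ne.symm e1, Ne.symm e3⟩, k⟩
  · exact h3 ⟨⟨hyz, Ne.symm e2, Ne.symm e3⟩, k⟩

/-- at most six ordered triples for each edge -/
theorem count_le (c : Fin n → Fin 3) :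
    ∑ x : Fin n, ∑ y : Fin n, ∑ z : Fin n, (if Rl c x y z then 1 else 0) ≤ 6 * (TG c).card := by
  have e : ∑ x : Fin n, ∑ y : Fin n, ∑ z : Fin n, (if Rl c x y z then 1 else 0) =
      ((univ : Finset (Fin n × Fin n × Fin n)).filter fun t => Rl c t.1 t.2.1 t.2.2).card := by
    rw [Finset.card_filter, Fintype.sum_prod_type]
    refine sum_congr rfl fun a _ => ?_
    rw [Fintype.sum_prod_type]
  rw [e]
  refine card_le_mul_card_image_of_maps_to (f := fun t : Fin n × Fin n × Fin n =>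
    ({t.1, t.2.1, t.2.2} : Finset (Fin n))) ?_ 6 ?_
  · intro t ht
    exact mem_image.2 ⟨t, ht, rfl⟩
  · intro b hb
    obtain ⟨⟨x, y, z⟩, ht, rfl⟩ := mem_image.1 hb
    obtain ⟨⟨h1, h2, h3⟩, _⟩ := (mem_filter.1 ht).2
    dsimp only at h1 h2 h3
    refine le_trans (card_le_card (t := {(x, y, z), (x, z, y), (y, x, z), (y, z, x), (z, x, y),
      (z, y, x)}) ?_) Finset.card_le_six
    rintro ⟨u, v, w⟩ hu
    have hu' := (mem_filter.1 hu).2
    dsimp only at hu'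
    rcases six h1 h2 h3 hu' with ⟨rfl, rfl, rfl⟩ | ⟨rfl, rfl, rfl⟩ | ⟨rfl, rfl, rfl⟩ |
      ⟨rfl, rfl, rfl⟩ | ⟨rfl, rfl, rfl⟩ | ⟨rfl, rfl, rfl⟩ <;> simp

/-- class sizes -/
def sz (c : Fin n → Fin 3) (k : Fin 3) : ℕ := ((univ : Finset (Fin n)).filter fun x => c x = k).card

theorem bc (c : Fin n → Fin 3) (F : Fin 3 → ℕ) :
    ∑ x, F (c x) = sz c 0 * F 0 + sz c 1 * F 1 + sz c 2 * F 2 := by
  have h : ∀ x, F (c x) = ∑ k, (if c x = k then F k else 0) := by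
    intro x
    simp
  rw [sum_congr rfl fun x _ => h x, sum_comm, Fin.sum_univ_three]
  have h2 : ∀ k, ∑ x, (if c x = k then F k else 0) = sz c k * F k := by
    intro k
    rw [← sum_filter, sum_const, smul_eq_mul]
    rfl
  rw [h2, h2, h2]

/-- indicator of the classes -/
def G (a b d : Fin 3) : ℕ := if tch a b d then 1 else 0

theorem sum_G (c : Fin n → Fin 3) : ∑ x, ∑ y, ∑ z, G (c x) (c y) (c z) =
    6 * (sz c 0 * sz c 1 * sz c 2) +
    3 * (sz c 0 ^ 2 * sz c 1 + sz c 1 ^ 2 * sz c 2 + sz c 2 ^ 2 * sz c 0) := by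
  have e1 : ∀ x y, ∑ z, G (c x) (c y) (c z) = sz c 0 * G (c x) (c y) 0 + sz c 1 * G (c x) (c y) 1 +
      sz c 2 * G (c x) (c y) 2 := fun x y => bc c fun d => G (c x) (c y) d
  simp only [e1]
  have e2 : ∀ x, ∑ y, (sz c 0 * G (c x) (c y) 0 + sz c 1 * G (c x) (c y) 1 +
      sz c 2 * G (c x) (c y) 2) = _ := fun x => bc c fun b => sz c 0 * G (c x) b 0 +
        sz c 1 * G (c x) b 1 + sz c 2 * G (c x) b 2
  simp only [e2]
  rw [bc c fun a => sz c 0 * (sz c 0 * G a 0 0 + sz c 1 * G a 0 1 + sz c 2 * G a 0 2) +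
    sz c 1 * (sz c 0 * G a 1 0 + sz c 1 * G a 1 1 + sz c 2 * G a 1 2) +
    sz c 2 * (sz c 0 * G a 2 0 + sz c 1 * G a 2 1 + sz c 2 * G a 2 2)]
  have g : (G 0 0 0 = 0 ∧ G 0 0 1 = 1 ∧ G 0 0 2 = 0 ∧ G 0 1 0 = 1 ∧ G 0 1 1 = 0 ∧ G 0 1 2 = 1 ∧
    G 0 2 0 = 0 ∧ G 0 2 1 = 1 ∧ G 0 2 2 = 1) ∧
    (G 1 0 0 = 1 ∧ G 1 0 1 = 0 ∧ G 1 0 2 = 1 ∧ G 1 1 0 = 0 ∧ G 1 1 1 = 0 ∧ G 1 1 2 = 1 ∧
    G 1 2 0 = 1 ∧ G 1 2 1 = 1 ∧ G 1 2 2 = 0) ∧
    (G 2 0 0 = 0 ∧ G 2 0 1 = 1 ∧ G 2 0 2 = 1 ∧ G 2 1 0 = 1 ∧ G 2 1 1 = 1 ∧ G 2 1 2 = 0 ∧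
    G 2 2 0 = 1 ∧ G 2 2 1 = 0 ∧ G 2 2 2 = 0) := by decide
  obtain ⟨⟨a1, a2, a3, a4, a5, a6, a7, a8, a9⟩, ⟨b1, b2, b3, b4, b5, b6, b7, b8, b9⟩,
    ⟨c1, c2, c3, c4, c5, c6, c7, c8, c9⟩⟩ := g
  rw [a1, a2, a3, a4, a5, a6, a7, a8, a9, b1, b2, b3, b4, b5, b6, b7, b8, b9,
    c1, c2, c3, c4, c5, c6, c7, c8, c9]
  ring

/-- indicator of the next class -/
def Nx (a b : Fin 3) : ℕ := if b = a + 1 then 1 else 0

theorem sum_Nx (c : Fin n → Fin 3) : ∑ x, ∑ y, Nx (c x) (c y) =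
    sz c 0 * sz c 1 + sz c 1 * sz c 2 + sz c 2 * sz c 0 := by
  have e1 : ∀ x, ∑ y, Nx (c x) (c y) = sz c 0 * Nx (c x) 0 + sz c 1 * Nx (c x) 1 +
      sz c 2 * Nx (c x) 2 := fun x => bc c fun d => Nx (c x) d
  simp only [e1]
  rw [bc c fun a => sz c 0 * Nx a 0 + sz c 1 * Nx a 1 + sz c 2 * Nx a 2]
  have g : Nx 0 0 = 0 ∧ Nx 0 1 = 1 ∧ Nx 0 2 = 0 ∧ Nx 1 0 = 0 ∧ Nx 1 1 = 0 ∧ Nx 1 2 = 1 ∧
    Nx 2 0 = 1 ∧ Nx 2 1 = 0 ∧ Nx 2 2 = 0 := by decide
  obtain ⟨a1, a2, a3, a4, a5, a6, a7, a8, a9⟩ := g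
  rw [a1, a2, a3, a4, a5, a6, a7, a8, a9]
  ring

theorem G_le (c : Fin n → Fin 3) (x y z : Fin n) : G (c x) (c y) (c z) ≤
    (if Rl c x y z then 1 else 0) + (if x = y then Nx (c x) (c z) else 0) +
      (if x = z then Nx (c x) (c y) else 0) + (if y = z then Nx (c y) (c x) else 0) := by
  have k1 : ∀ a d : Fin 3, G a a d ≤ Nx a d := by decide
  have k2 : ∀ a b : Fin 3, G a b a ≤ Nx a b := by decide
  have k3 : ∀ a b : Fin 3, G a b b ≤ Nx b a := by decide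
  by_cases h1 : x = y
  · subst h1
    rw [if_pos rfl]
    have := k1 (c x) (c z)
    omega
  · by_cases h2 : x = z
    · subst h2
      rw [if_pos rfl]
      have := k2 (c x) (c y)
      omega
    · by_cases h3 : y = z
      · subst h3
        rw [if_pos rfl]
        have := k3 (c x) (c y)
        omega
      · unfold G Rl
        by_cases h4 : tch (c x) (c y) (c z)
        · rw [if_pos h4, if_pos ⟨⟨h1, h2, h3⟩, h4⟩]
          omega
        · rw [if_neg h4]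
          omega

theorem lower (c : Fin n → Fin 3) : 6 * (sz c 0 * sz c 1 * sz c 2) +
    3 * (sz c 0 ^ 2 * sz c 1 + sz c 1 ^ 2 * sz c 2 + sz c 2 ^ 2 * sz c 0) ≤
    6 * (TG c).card + 3 * (sz c 0 * sz c 1 + sz c 1 * sz c 2 + sz c 2 * sz c 0) := by
  have h1 : ∑ x, ∑ y, ∑ z, G (c x) (c y) (c z) ≤
      ∑ x : Fin n, ∑ y : Fin n, ∑ z : Fin n, ((if Rl c x y z then 1 else 0) +
        (if x = y then Nx (c x) (c z) else 0) + (if x = z then Nx (c x) (c y) else 0) +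
        (if y = z then Nx (c y) (c x) else 0)) :=
    sum_le_sum fun x _ => sum_le_sum fun y _ => sum_le_sum fun z _ => G_le c x y z
  simp only [sum_add_distrib] at h1
  have t1 : ∑ x : Fin n, ∑ y : Fin n, ∑ z : Fin n, (if x = y then Nx (c x) (c z) else 0) =
      ∑ x, ∑ z, Nx (c x) (c z) := by
    refine sum_congr rfl fun x _ => ?_
    rw [sum_comm]
    refine sum_congr rfl fun z _ => ?_
    rw [sum_ite_eq]
    simp
  have t2 : ∑ x : Fin n, ∑ y : Fin n, ∑ z : Fin n, (if x = z then Nx (c x) (c y) else 0) =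
      ∑ x, ∑ y, Nx (c x) (c y) := by
    refine sum_congr rfl fun x _ => sum_congr rfl fun y _ => ?_
    rw [sum_ite_eq]
    simp
  have t3 : ∑ x : Fin n, ∑ y : Fin n, ∑ z : Fin n, (if y = z then Nx (c y) (c x) else 0) =
      ∑ y, ∑ x, Nx (c y) (c x) := by
    rw [sum_comm]
    refine sum_congr rfl fun y _ => sum_congr rfl fun x _ => ?_
    rw [sum_ite_eq]
    simp
  rw [t1, t2, t3, sum_Nx, sum_G] at h1
  have h2 := count_le c
  omega

/-- three intervals -/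
def cut (n q : ℕ) (x : Fin n) : Fin 3 := if x.val < q then 0 else if x.val < 2 * q then 1 else 2

theorem cut_sz {q r : ℕ} (h : n = 3 * q + r) :
    sz (cut n q) 0 = q ∧ sz (cut n q) 1 = q ∧ sz (cut n q) 2 = q + r := by
  have e0 : (univ.filter fun x => cut n q x = 0) = univ.filter fun x : Fin n => x.val < q := by
    refine filter_congr fun x _ => ?_
    unfold cut
    by_cases h1 : x.val < q
    · simp [h1]
    · by_cases h2 : x.val < 2 * q <;> simp [h1, h2]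
  have e2 : (univ.filter fun x => ¬ (cut n q x = 2)) =
      univ.filter fun x : Fin n => x.val < 2 * q := by
    refine filter_congr fun x _ => ?_
    unfold cut
    by_cases h1 : x.val < q
    · have : x.val < 2 * q := by omega
      simp [h1, this]
    · by_cases h2 : x.val < 2 * q <;> simp [h1, h2]
  have c0 : sz (cut n q) 0 = q := by
    unfold sz
    rw [e0, Fin.card_filter_val_lt]
    omega
  have c2' : (univ.filter fun x => ¬ (cut n q x = 2)).card = 2 * q := by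
    rw [e2, Fin.card_filter_val_lt]
    omega
  have c2 : sz (cut n q) 2 = q + r := by
    have := card_filter_add_card_filter_not (s := (univ : Finset (Fin n)))
      (fun x => cut n q x = 2)
    rw [c2', card_univ, Fintype.card_fin] at this
    unfold sz
    omega
  have hs := bc (cut n q) fun _ => 1
  rw [sum_const, card_univ, Fintype.card_fin, smul_eq_mul, c0, c2] at hs
  refine ⟨c0, ?_, c2⟩
  omega

end

/-- **Turán's construction.** -/
theorem attains (n : ℕ) : ∃ H : Finset (Finset (Fin n)), (∀ e ∈ H, e.card = 3) ∧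
    (∀ S : Finset (Fin n), S.card = 4 → ∃ e, e ⊆ S ∧ e.card = 3 ∧ e ∉ H) ∧
    (∀ x y z w : Fin n, ({x, y, z} : Finset (Fin n)) ∈ H → {x, y, w} ∉ H → {x, z, w} ∉ H →
      {y, z, w} ∉ H → False) ∧ 5 * n ^ 3 ≤ 54 * H.card + 27 * n ^ 2 := by
  refine ⟨TG (cut n (n / 3)), TG_card3 _, TG_free _, fun x y z w => TG_one _ x y z w, ?_⟩
  have hn : n = 3 * (n / 3) + n % 3 := by omega
  obtain ⟨s0, s1, s2⟩ := cut_sz hn
  have h := lower (cut n (n / 3))
  rw [s0, s1, s2] at h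
  have hr : n % 3 < 3 := Nat.mod_lt _ (by norm_num)
  generalize (TG (cut n (n / 3))).card = t at h
  generalize n / 3 = q at *
  generalize n % 3 = r at *
  subst hn
  interval_cases r <;> nlinarith [h]

end Pool.Agent.H42SW
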