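import Pool.Agent.H37R3.Pen

/-! Six-vertex flags with an additional term for the vertex quadruples with exactly one edge:
definitions. -/

set_option autoImplicit false
set_option maxRecDepth 100000

namespace Pool.Agent.H42SW
open Pool.Agent.H122R2.N6 Pool.Agent.H37R3.Pen

/-- `x y z` is the only edge on `x, y, z, w`, and `v, w` form an edge with each of `x, y, z` -/
def gd (xyz xyw xzw yzw xwv ywv zwv : ℕ) : Bool :=
  and (Nat.beq xyz 1) (and (Nat.beq (Nat.add xyw (Nat.add xzw yzw)) 0)
    (Nat.beq (Nat.add xwv (Nat.add ywv zwv)) 3))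

/-- the term of `x, y, z, w, v, u`, with the offset `O` -/
def mo (A B O xyz xyw xzw yzw xyv xzv yzv xwv ywv zwv xyu xzu yzu xwu ywu zwu : ℕ) : ℕ :=
  cond (gd xyz xyw xzw yzw xwv ywv zwv)
    (cond (Nat.beq (Nat.add xyv (Nat.add xzv yzv)) 1)
      (Nat.sub (Nat.add O (Nat.mul B (Nat.add (Nat.add xyu (Nat.add xzu yzu))
          (Nat.add (Nat.mul xyv xyu) (Nat.add (Nat.mul xzv xzu) (Nat.mul yzv yzu))))))
        (Nat.mul B (Nat.add (Nat.add xwu (Nat.add ywu zwu))
          (Nat.add (Nat.mul xyv zwu) (Nat.add (Nat.mul xzv ywu) (Nat.mul yzv xwu))))))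
      (cond (Nat.beq (Nat.add xyv (Nat.add xzv yzv)) 2)
        (Nat.sub (Nat.add O (Nat.mul A (Nat.add (Nat.add xyu (Nat.add xzu yzu))
            (Nat.add (Nat.mul (Nat.sub 1 xyv) xyu) (Nat.add (Nat.mul (Nat.sub 1 xzv) xzu)
              (Nat.mul (Nat.sub 1 yzv) yzu))))))
          (Nat.mul A (Nat.add (Nat.add xwu (Nat.add ywu zwu))
            (Nat.add (Nat.mul (Nat.sub 1 xyv) zwu) (Nat.add (Nat.mul (Nat.sub 1 xzv) ywu)
              (Nat.mul (Nat.sub 1 yzv) xwu))))))
        O)) O

def lm5 (A B O b012 b013 b023 b123 b014 b024 b124 b034 b134 b234 b015 b025 b125 b035 b135 b235 b045 b145 b245 b345 : ℕ) : ℕ :=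
  (Nat.add (mo A B O b234 b023 b024 b034 b123 b124 b134 b012 b013 b014 b235 b245 b345 b025 b035 b045)
    (Nat.add (mo A B O b134 b013 b014 b034 b123 b124 b234 b012 b023 b024 b135 b145 b345 b015 b035 b045)
    (Nat.add (mo A B O b124 b012 b014 b024 b123 b134 b234 b013 b023 b034 b125 b145 b245 b015 b025 b045)
    (Nat.add (mo A B O b123 b012 b013 b023 b124 b134 b234 b014 b024 b034 b125 b135 b235 b015 b025 b035)
    (Nat.add (mo A B O b234 b123 b124 b134 b023 b024 b034 b012 b013 b014 b235 b245 b345 b125 b135 b145)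
    (Nat.add (mo A B O b034 b013 b014 b134 b023 b024 b234 b012 b123 b124 b035 b045 b345 b015 b135 b145)
    (Nat.add (mo A B O b024 b012 b014 b124 b023 b034 b234 b013 b123 b134 b025 b045 b245 b015 b125 b145)
    (Nat.add (mo A B O b023 b012 b013 b123 b024 b034 b234 b014 b124 b134 b025 b035 b235 b015 b125 b135)
    (Nat.add (mo A B O b134 b123 b124 b234 b013 b014 b034 b012 b023 b024 b135 b145 b345 b125 b235 b245)
    (Nat.add (mo A B O b034 b023 b024 b234 b013 b014 b134 b012 b123 b124 b035 b045 b345 b025 b235 b245)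
    (Nat.add (mo A B O b014 b012 b024 b124 b013 b034 b134 b023 b123 b234 b015 b045 b145 b025 b125 b245)
    (Nat.add (mo A B O b013 b012 b023 b123 b014 b034 b134 b024 b124 b234 b015 b035 b135 b025 b125 b235)
    (Nat.add (mo A B O b124 b123 b134 b234 b012 b014 b024 b013 b023 b034 b125 b145 b245 b135 b235 b345)
    (Nat.add (mo A B O b024 b023 b034 b234 b012 b014 b124 b013 b123 b134 b025 b045 b245 b035 b235 b345)
    (Nat.add (mo A B O b014 b013 b034 b134 b012 b024 b124 b023 b123 b234 b015 b045 b145 b035 b135 b345)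
    (Nat.add (mo A B O b012 b013 b023 b123 b014 b024 b124 b034 b134 b234 b015 b025 b125 b035 b135 b235)
    (Nat.add (mo A B O b123 b124 b134 b234 b012 b013 b023 b014 b024 b034 b125 b135 b235 b145 b245 b345)
    (Nat.add (mo A B O b023 b024 b034 b234 b012 b013 b123 b014 b124 b134 b025 b035 b235 b045 b245 b345)
    (Nat.add (mo A B O b013 b014 b034 b134 b012 b023 b123 b024 b124 b234 b015 b035 b135 b045 b145 b345)
    (mo A B O b012 b014 b024 b124 b013 b023 b123 b034 b134 b234 b015 b025 b125 b045 b145 b245))))))))))))))))))))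

def lm6 (A B O b012 b013 b023 b123 b014 b024 b124 b034 b134 b234 b015 b025 b125 b035 b135 b235 b045 b145 b245 b345 : ℕ) : ℕ :=
  (Nat.add (lm5 A B O b012 b013 b023 b123 b014 b024 b124 b034 b134 b234 b015 b025 b125 b035 b135 b235 b045 b145 b245 b345)
    (Nat.add (lm5 A B O b012 b013 b023 b123 b015 b025 b125 b035 b135 b235 b014 b024 b124 b034 b134 b234 b045 b145 b245 b345)
    (Nat.add (lm5 A B O b012 b014 b024 b124 b015 b025 b125 b045 b145 b245 b013 b023 b123 b034 b134 b234 b035 b135 b235 b345)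
    (Nat.add (lm5 A B O b013 b014 b034 b134 b015 b035 b135 b045 b145 b345 b012 b023 b123 b024 b124 b234 b025 b125 b235 b245)
    (Nat.add (lm5 A B O b023 b024 b034 b234 b025 b035 b235 b045 b245 b345 b012 b013 b123 b014 b124 b134 b015 b125 b135 b145)
    (lm5 A B O b123 b124 b134 b234 b125 b135 b235 b145 b245 b345 b012 b013 b023 b014 b024 b034 b015 b025 b035 b045))))))

section
variable {V : Type} (E : V → V → V → ℕ) (A B O : ℕ)

def Mo (x y z w v u : V) : ℕ :=
  mo A B O (E x y z) (E x y w) (E x z w) (E y z w) (E x y v) (E x z v) (E y z v) (E x w v) (E y w v)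
    (E z w v) (E x y u) (E x z u) (E y z u) (E x w u) (E y w u) (E z w u)

def M5 (a b c d e f : V) : ℕ :=
  (Mo E A B O c d e a b f +
    (Mo E A B O b d e a c f +
    (Mo E A B O b c e a d f +
    (Mo E A B O b c d a e f +
    (Mo E A B O c d e b a f +
    (Mo E A B O a d e b c f +
    (Mo E A B O a c e b d f +
    (Mo E A B O a c d b e f +
    (Mo E A B O b d e c a f +
    (Mo E A B O a d e c b f +
    (Mo E A B O a b e c d f +
    (Mo E A B O a b d c e f +
    (Mo E A B O b c e d a f +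
    (Mo E A B O a c e d b f +
    (Mo E A B O a b e d c f +
    (Mo E A B O a b c d e f +
    (Mo E A B O b c d e a f +
    (Mo E A B O a c d e b f +
    (Mo E A B O a b d e c f +
    Mo E A B O a b c e d f)))))))))))))))))))

def M6 (a b c d e f : V) : ℕ :=
  (M5 E A B O a b c d e f +
    (M5 E A B O a b c d f e +
    (M5 E A B O a b c e f d +
    (M5 E A B O a b d e f c +
    (M5 E A B O a c d e f b +
    M5 E A B O b c d e f a)))))

/-- `lm6` at the values of `E` -/
def M6l (a b c d e f : V) : ℕ :=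
  lm6 A B O (E a b c) (E a b d) (E a c d) (E b c d) (E a b e) (E a c e) (E b c e) (E a d e) (E b d e) (E c d e) (E a b f) (E a c f) (E b c f) (E a d f) (E b d f) (E c d f) (E a e f) (E b e f) (E c e f) (E d e f)

end

/-- the leaf inequality with the additional term -/
def chkM (q4 : ℕ → ℕ → ℕ → ℕ) (q2 : ℕ → ℕ → ℕ) (C A B O : ℕ) (b012 b013 b023 b123 b014 b024 b124 b034 b134 b234 : ℕ) : Bool :=
  B2 fun b015 => B2 fun b025 => B2 fun b125 => or (k4b b012 b015 b025 b125) (B2 fun b035 => B2 fun b135 => or (k4b b013 b015 b035 b135) (B2 fun b235 => or (k4b b023 b025 b035 b235) (or (k4b b123 b125 b135 b235) (B2 fun b045 => B2 fun b145 => or (k4b b014 b015 b045 b145) (B2 fun b245 => or (k4b b024 b025 b045 b245) (or (k4b b124 b125 b145 b245) (B2 fun b345 => or (k4b b034 b035 b045 b345) (or (k4b b134 b135 b145 b345) (or (k4b b234 b235 b245 b345) (Nat.ble (Nat.add (Nat.add (leaf4 q4 b012 b013 b023 b123 b014 b024 b124 b034 b134 b234 b015 b025 b125 b035 b135 b235 b045 b145 b245 b345) (leaf2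 q2 b012 b013 b023 b123 b014 b024 b124 b034 b134 b234 b015 b025 b125 b035 b135 b235 b045 b145 b245 b345)) (lm6 A B O b012 b013 b023 b123 b014 b024 b124 b034 b134 b234 b015 b025 b125 b035 b135 b235 b045 b145 b245 b345)) C))))))))))

end Pool.Agent.H42SW
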