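import Pool.Agent.H42SW.Sum

/-! The lower bound of `H42SW.Sum`, where only the quadruples count which are extended by a fifth
vertex in the required way. -/

set_option autoImplicit false
set_option maxRecDepth 100000
set_option maxHeartbeats 4000000
open Finset
open scoped Classical

namespace Pool.Agent.H42SW
open Pool.Agent.H122R2.N6 Pool.Agent.H37R3.Pen

section
variable {V : Type} [Fintype V]

/-- some `v` forms an edge with `w` and each of `x, y, z`, and with two of `x, y, z` -/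
def Lk (E : V → V → V → ℕ) (x y z w : V) : Prop :=
  ∃ v, E x w v = 1 ∧ E y w v = 1 ∧ E z w v = 1 ∧ (E x y v = 1 ∨ E x z v = 1 ∨ E y z v = 1)

/-- the term of the violation sum -/
noncomputable def vL (E : V → V → V → ℕ) (x y z w : V) : ℤ :=
  if Lk E x y z w then vt E x y z w else 0

noncomputable def ViolL (E : V → V → V → ℕ) : ℤ := ∑ x, ∑ y, ∑ z, ∑ w, vL E x y z w

theorem vt_nonneg (E : V → V → V → ℕ) (x y z w : V) : 0 ≤ vt E x y z w := by
  unfold vt
  split_ifs
  · exact le_max_left _ _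
  · exact le_rfl

theorem vL_nonneg (E : V → V → V → ℕ) (x y z w : V) : 0 ≤ vL E x y z w := by
  unfold vL
  split_ifs
  · exact vt_nonneg E x y z w
  · exact le_rfl

theorem ViolL_nonneg (E : V → V → V → ℕ) : 0 ≤ ViolL E :=
  sum_nonneg fun x _ => sum_nonneg fun y _ => sum_nonneg fun z _ => sum_nonneg fun w _ =>
    vL_nonneg E x y z w

theorem inner_Mo2 {E : V → V → V → ℕ} (hE : Sy E) (A B O : ℕ) (hA : 4 * A ≤ O) (hB : 4 * B ≤ O)
    (R : ℕ) (hRA : A ≤ R) (hRB : B ≤ R) (x y z w v : V) :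
    (O : ℤ) * (Fintype.card V : ℤ) ≤ ∑ u, (Mo E A B O x y z w v u : ℤ)
      + R * (vL E x y z w + vL E x z y w + vL E y z x w) := by
  have hconst : ∑ _u : V, (O : ℤ) = (O : ℤ) * (Fintype.card V : ℤ) := by
    rw [sum_const, card_univ, nsmul_eq_mul, mul_comm]
  have hpos : (0 : ℤ) ≤ R * (vL E x y z w + vL E x z y w + vL E y z x w) :=
    mul_nonneg (Int.natCast_nonneg _) (add_nonneg (add_nonneg (vL_nonneg _ _ _ _ _)
      (vL_nonneg _ _ _ _ _)) (vL_nonneg _ _ _ _ _))
  cases hg : gd (E x y z) (E x y w) (E x z w) (E y z w) (E x w v) (E y w v) (E z w v) with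
  | false =>
    have e : ∑ u, (Mo E A B O x y z w v u : ℤ) = (O : ℤ) * (Fintype.card V : ℤ) := by
      rw [← hconst]
      refine sum_congr rfl fun u _ => ?_
      unfold Mo
      rw [mo_off hg]
    linarith
  | true =>
    by_cases hk : E x y v + (E x z v + E y z v) = 1 ∨ E x y v + (E x z v + E y z v) = 2
    · have h3 : E x w v + (E y w v + E z w v) = 3 := by
        unfold gd at hg
        simp only [Bool.and_eq_true] at hg
        exact Nat.eq_of_beq_eq_true hg.2.2
      have b1 := hE.b x w v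
      have b2 := hE.b y w v
      have b3 := hE.b z w v
      have b4 := hE.b x y v
      have b5 := hE.b x z v
      have b6 := hE.b y z v
      have f1 : E x w v = 1 := by unfold Bt at b1 b2 b3; omega
      have f2 : E y w v = 1 := by unfold Bt at b1 b2 b3; omega
      have f3 : E z w v = 1 := by unfold Bt at b1 b2 b3; omega
      have f4 : E x y v = 1 ∨ E x z v = 1 ∨ E y z v = 1 := by unfold Bt at b4 b5 b6; omega
      have l1 : Lk E x y z w := ⟨v, f1, f2, f3, f4⟩
      have l2 : Lk E x z y w := ⟨v, f1, f3, f2, by rw [hE.h213 y z v]; tauto⟩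
      have l3 : Lk E y z x w := ⟨v, f2, f3, f1, by rw [hE.h213 x y v, hE.h213 x z v]; tauto⟩
      have h := inner_Mo hE A B O hA hB R hRA hRB x y z w v
      unfold vL
      rw [if_pos l1, if_pos l2, if_pos l3]
      exact h
    · have e : ∑ u, (Mo E A B O x y z w v u : ℤ) = (O : ℤ) * (Fintype.card V : ℤ) := by
        rw [← hconst]
        refine sum_congr rfl fun u _ => ?_
        unfold Mo
        rw [mo_3 _ _ _ (fun h => hk (Or.inl h)) (fun h => hk (Or.inr h))]
      linarith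

theorem sum_Mo2 {E : V → V → V → ℕ} (hE : Sy E) (A B O : ℕ) (hA : 4 * A ≤ O) (hB : 4 * B ≤ O)
    (R : ℕ) (hRA : A ≤ R) (hRB : B ≤ R) :
    (O : ℤ) * (Fintype.card V : ℤ) ^ 6 ≤
      (∑ x : Fin 6 → V, (Mo E A B O (x 0) (x 1) (x 2) (x 3) (x 4) (x 5) : ℤ))
        + 3 * R * (Fintype.card V : ℤ) * ViolL E := by
  rw [conv6 (fun a b c d e f => (Mo E A B O a b c d e f : ℤ))]
  have h1 : ∑ x : V, ∑ y : V, ∑ z : V, ∑ w : V, ∑ _v : V, (O : ℤ) * (Fintype.card V : ℤ)
      ≤ ∑ x, ∑ y, ∑ z, ∑ w, ∑ v, (∑ u, (Mo E A B O x y z w v u : ℤ)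
        + R * (vL E x y z w + vL E x z y w + vL E y z x w)) :=
    sum_le_sum fun x _ => sum_le_sum fun y _ => sum_le_sum fun z _ => sum_le_sum fun w _ =>
      sum_le_sum fun v _ => inner_Mo2 hE A B O hA hB R hRA hRB x y z w v
  have h2 : ∑ x : V, ∑ y : V, ∑ z : V, ∑ w : V, ∑ _v : V, (O : ℤ) * (Fintype.card V : ℤ)
      = (O : ℤ) * (Fintype.card V : ℤ) ^ 6 := by
    simp only [sum_const, card_univ, nsmul_eq_mul]
    ring
  have hV : ViolL E = ∑ x, ∑ y, ∑ z, ∑ w, vL E x y z w := rfl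
  have s2 : ∑ x, ∑ y, ∑ z, ∑ w, vL E x z y w = ViolL E := by
    rw [hV]
    refine sum_congr rfl fun x _ => ?_
    rw [sum_comm]
  have s3 : ∑ x, ∑ y, ∑ z, ∑ w, vL E y z x w = ViolL E := by
    rw [hV, sum_comm]
    refine sum_congr rfl fun x _ => ?_
    rw [sum_comm]
  have h3 : ∑ x, ∑ y, ∑ z, ∑ w, ∑ v, (∑ u, (Mo E A B O x y z w v u : ℤ)
        + R * (vL E x y z w + vL E x z y w + vL E y z x w))
      = ∑ x, ∑ y, ∑ z, ∑ w, ∑ v, ∑ u, (Mo E A B O x y z w v u : ℤ)
        + R * (Fintype.card V : ℤ) * (∑ x, ∑ y, ∑ z, ∑ w, vL E x y z w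
          + ∑ x, ∑ y, ∑ z, ∑ w, vL E x z y w + ∑ x, ∑ y, ∑ z, ∑ w, vL E y z x w) := by
    simp only [sum_add_distrib, mul_add, mul_sum, sum_const, card_univ, nsmul_eq_mul]
    have : ∀ t : ℤ, (Fintype.card V : ℤ) * ((R : ℤ) * t) = (R : ℤ) * (Fintype.card V : ℤ) * t := by
      intro t; ring
    simp only [this]
  rw [s2, s3, ← hV] at h3
  rw [h2, h3] at h1
  linarith

end

end Pool.Agent.H42SW
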