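import Pool.Agent.H42SW.PsdA
import Pool.Agent.H42SW.PsdB
import Pool.Agent.H42SW.PsdC
import Pool.Agent.H42SW.PsdD
import Pool.Agent.H42SW.PsdE
import Pool.Agent.H42SW.Part00
import Pool.Agent.H42SW.Part01
import Pool.Agent.H42SW.Part10
import Pool.Agent.H42SW.Part11
import Pool.Agent.H42SW.Leaf
import Pool.Agent.H42SW.Sum2
import Pool.Agent.H122R2.N6.Count

set_option autoImplicit false
set_option maxRecDepth 100000
set_option maxHeartbeats 4000000
open Finset

namespace Pool.Agent.H42SW.Ct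
open Pool.Agent.H122R2.N6 Pool.Agent.H37R3.Pen Pool.Agent.H42SW

theorem hc (b012 b013 b023 b123 b014 b024 b124 b034 b134 b234 : ℕ) (hb012 : Bt b012) (hb013 : Bt b013) (hb023 : Bt b023) (hb123 : Bt b123) (hb014 : Bt b014) (hb024 : Bt b024) (hb124 : Bt b124) (hb034 : Bt b034) (hb134 : Bt b134) (hb234 : Bt b234) (ht : tg b012 b013 b023 b123 b014 b024 b124 b034 b134 b234 = 4) :
    chkM q4 q2 CST CA CB CO b012 b013 b023 b123 b014 b024 b124 b034 b134 b234 = true := by
  have h : part b012 b013 = true := by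
    rcases hb012 with rfl | rfl <;> rcases hb013 with rfl | rfl
    exacts [part00, part01, part10, part11]
  have h2 := (B2_true (B2_true (B2_true (B2_true (B2_true (B2_true (B2_true (B2_true h hb023) hb123) hb014) hb024) hb124) hb034) hb134) hb234)
  refine or_false_left h2 ?_
  rw [ht]
  rfl

theorem rng : (nall 16 fun c => and (Nat.blt (rho c) 4) (nall 64 fun i => Nat.blt (pc c i) 64)) = true := by
  decide +kernel

theorem rho_lt {c : ℕ} (h : c < 16) : rho c < 4 := by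
  have := nall_true rng c h
  rw [Bool.and_eq_true] at this
  exact Nat.le_of_ble_eq_true this.1

theorem pc_lt {c i : ℕ} (h : c < 16) (hi : i < 64) : pc c i < 64 := by
  have := nall_true rng c h
  rw [Bool.and_eq_true] at this
  exact Nat.le_of_ble_eq_true (nall_true this.2 i hi)

theorem g4_all {r i j : ℕ} (hr : r < 4) (hi : i < 64) (hj : j < 64) : g4 r i j = true := by
  have h : chk4 r = true := by
    interval_cases r
    exacts [cp0, cp1, cp2, cp3]
  exact nall_true (nall_true h i hi) j hj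

theorem expand (s : Finset ℕ) (w u v : ℕ → ℕ) (B : ℤ) :
    ∑ k ∈ s, (w k : ℤ) * ((u k : ℤ) - B) * ((v k : ℤ) - B) =
      ∑ k ∈ s, (w k : ℤ) * ((u k : ℤ) * (v k : ℤ)) + B ^ 2 * ∑ k ∈ s, (w k : ℤ)
        - B * (∑ k ∈ s, (w k : ℤ) * (u k : ℤ) + ∑ k ∈ s, (w k : ℤ) * (v k : ℤ)) := by
  rw [mul_add, mul_sum, mul_sum, mul_sum, ← sum_add_distrib, ← sum_add_distrib, ← sum_sub_distrib]
  exact sum_congr rfl fun k _ => by ring

theorem hq4 (c i j : ℕ) (hc : c < 16) (hi : i < 64) (hj : j < 64) : (q4 c i j : ℤ) =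
    ∑ k ∈ range 78, (w4 (rho c) k : ℤ) * ((l4 (rho c) (pc c i) k : ℤ) - 8388608) *
      ((l4 (rho c) (pc c j) k : ℤ) - 8388608) + 72057594037927936 := by
  have h := Nat.eq_of_beq_eq_true (g4_all (rho_lt hc) (pc_lt hc hi) (pc_lt hc hj))
  unfold ll sw sl at h
  rw [nsum_eq, nsum_eq, nsum_eq, nsum_eq] at h
  have h2 := congrArg (fun n : ℕ => (n : ℤ)) h
  simp only [Nat.add_eq, Nat.mul_eq] at h2
  push_cast at h2
  rw [expand (range 78) (fun k => w4 (rho c) k) (fun k => l4 (rho c) (pc c i) k)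
    (fun k => l4 (rho c) (pc c j) k) 8388608]
  have h3 : (q4 c i j : ℤ) = (tq (rho c) (pc c i) (pc c j) : ℤ) := rfl
  rw [h3]
  linarith

theorem hq2 (i j : ℕ) (hi : i < 16) (hj : j < 16) : (q2 i j : ℤ) =
    ∑ k ∈ range 12, (w2 k : ℤ) * ((l2 i k : ℤ) - 8388608) * ((l2 j k : ℤ) - 8388608)
      + (72057594037927936 + 395824185999360 * ((kk i j : ℕ) : ℤ)) := by
  have h := Nat.eq_of_beq_eq_true (nall_true (nall_true cpb i hi) j hj)
  unfold ll2 sw2 sl2 at h
  rw [nsum_eq, nsum_eq, nsum_eq, nsum_eq] at h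
  have h2 := congrArg (fun n : ℕ => (n : ℤ)) h
  simp only [Nat.add_eq, Nat.mul_eq] at h2
  push_cast at h2
  rw [expand (range 12) (fun k => w2 k) (fun k => l2 i k) (fun k => l2 j k) 8388608]
  linarith

open scoped Classical in
theorem main {V : Type} [Fintype V] {H : Finset (Finset V)} (hH : ∀ e ∈ H, e.card = 3)
    (hF : K43Free H) :
    54 * (Fintype.card V : ℤ) ^ 2 * (H.card : ℤ) ≤
      5 * (Fintype.card V : ℤ) ^ 5 + 122 * ViolL (tri H) := by
  have hE := tri_sy H
  have hb := boundM (tri H) hE 78 12 CST CA CB CO q4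
    (fun c k => w4 (rho c) k) (fun c i k => l4 (rho c) (pc c i) k)
    q2 w2 l2 8388608 72057594037927936 72057594037927936 (fun k => 395824185999360 * (k : ℤ)) hq4 hq2
    (leafM_all hE (tri_noK4 hH hF) cs4 cs2 hc)
  rw [T2_lin (tri H) hE] at hb
  have hs := sum_Mo2 hE CA CB CO (by unfold CA CO; norm_num) (by unfold CB CO; norm_num) CB
    (by unfold CA CB; norm_num) le_rfl
  have hC : (CST : ℤ) = 6524765882013450240 := rfl
  have hO : (CO : ℤ) = 18014398509481984 := rfl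
  have hR : (CB : ℤ) = 2665068271836450 := rfl
  rw [hC] at hb
  rw [hO, hR] at hs
  have h2 : ((6 * H.card : ℕ) : ℤ) ≤ ∑ a, ∑ b, ∑ c, ((tri H a b c : ℕ) : ℤ) := by
    exact_mod_cast six_card_le hH
  have hV : (0 : ℤ) ≤ ViolL (tri H) := ViolL_nonneg _
  rcases Nat.eq_zero_or_pos (Fintype.card V) with hn | hn
  · rw [hn]
    push_cast
    linarith
  · have hn' : (0 : ℤ) < (Fintype.card V : ℤ) := by exact_mod_cast hn
    have h3 : (0 : ℤ) ≤ (Fintype.card V : ℤ) ^ 3 := by positivity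
    have h4 := mul_le_mul_of_nonneg_left h2 h3
    push_cast at h4
    have hnV : (0 : ℤ) ≤ (Fintype.card V : ℤ) * ViolL (tri H) := mul_nonneg hn'.le hV
    have h5 : (Fintype.card V : ℤ) * (54 * (Fintype.card V : ℤ) ^ 2 * (H.card : ℤ)) ≤
        (Fintype.card V : ℤ) * (5 * (Fintype.card V : ℤ) ^ 5 + 122 * ViolL (tri H)) := by
      nlinarith [hb, hs, h4, hnV]
    exact le_of_mul_le_mul_left h5 hn'

end Pool.Agent.H42SW.Ct
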