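import Pool.Agent.H42SW.Fin

/-! The inequality of `H42SW.Fin` for 3-graphs on `Fin n`, with codegrees. -/

set_option autoImplicit false
set_option maxHeartbeats 1000000
open Finset

namespace Pool.Agent.H42SW.Res
open Pool.Agent.H122R2.N6 Pool.Agent.H42SW

/-- codegree -/
def codeg {n : ℕ} (H : Finset (Finset (Fin n))) (x y : Fin n) : ℕ :=
  (univ.filter fun z => ({x, y, z} : Finset (Fin n)) ∈ H).card

/-- `{x, y, z}` is an edge, and the only one on `x, y, z, w` -/
def OnlyEdge {n : ℕ} (H : Finset (Finset (Fin n))) (x y z w : Fin n) : Prop :=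
  ({x, y, z} : Finset (Fin n)) ∈ H ∧ ({x, y, w} : Finset (Fin n)) ∉ H ∧
    ({x, z, w} : Finset (Fin n)) ∉ H ∧ ({y, z, w} : Finset (Fin n)) ∉ H

/-- some `v` forms an edge with `w` and each of `x, y, z`, and with two of `x, y, z` -/
def Linked {n : ℕ} (H : Finset (Finset (Fin n))) (x y z w : Fin n) : Prop :=
  ∃ v, ({x, w, v} : Finset (Fin n)) ∈ H ∧ ({y, w, v} : Finset (Fin n)) ∈ H ∧
    ({z, w, v} : Finset (Fin n)) ∈ H ∧ (({x, y, v} : Finset (Fin n)) ∈ H ∨
      ({x, z, v} : Finset (Fin n)) ∈ H ∨ ({y, z, v} : Finset (Fin n)) ∈ H)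

open scoped Classical in
/-- total excess -/
noncomputable def excess {n : ℕ} (H : Finset (Finset (Fin n))) : ℕ :=
  ∑ x, ∑ y, ∑ z, ∑ w, if OnlyEdge H x y z w ∧ Linked H x y z w then
    (codeg H x w + codeg H y w) - (codeg H x z + codeg H y z) else 0

theorem tri_eq {n : ℕ} (H : Finset (Finset (Fin n))) (x y z : Fin n) :
    tri H x y z = if ({x, y, z} : Finset (Fin n)) ∈ H then 1 else 0 := by
  unfold tri
  congr!

theorem tri_one {n : ℕ} (H : Finset (Finset (Fin n))) (x y z : Fin n) :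
    (tri H x y z = 1) ↔ ({x, y, z} : Finset (Fin n)) ∈ H := by
  rw [tri_eq]
  split_ifs <;> simp_all

theorem tri_nil {n : ℕ} (H : Finset (Finset (Fin n))) (x y z : Fin n) :
    (tri H x y z = 0) ↔ ({x, y, z} : Finset (Fin n)) ∉ H := by
  rw [tri_eq]
  split_ifs <;> simp_all

theorem sum_tri {n : ℕ} (H : Finset (Finset (Fin n))) (x y : Fin n) :
    ∑ u, (tri H x y u : ℤ) = (codeg H x y : ℤ) := by
  unfold codeg
  rw [Finset.card_filter]
  push_cast
  refine sum_congr rfl fun u _ => ?_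
  rw [tri_eq]
  split_ifs <;> rfl

theorem viol {n : ℕ} (H : Finset (Finset (Fin n))) : ViolL (tri H) = (excess H : ℤ) := by
  unfold ViolL excess
  push_cast
  refine sum_congr rfl fun x _ => sum_congr rfl fun y _ => sum_congr rfl fun z _ =>
    sum_congr rfl fun w _ => ?_
  unfold vL vt
  rw [sum_tri, sum_tri, sum_tri, sum_tri]
  have e : (tri H x y z = 1 ∧ tri H x y w = 0 ∧ tri H x z w = 0 ∧ tri H y z w = 0) ↔
      OnlyEdge H x y z w := by
    unfold OnlyEdge
    rw [tri_one, tri_nil, tri_nil, tri_nil]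
  have e' : Lk (tri H) x y z w ↔ Linked H x y z w := by
    unfold Lk Linked
    simp only [tri_one]
  by_cases h' : Linked H x y z w
  · rw [if_pos (e'.2 h')]
    by_cases h : OnlyEdge H x y z w
    · rw [if_pos (e.2 h), if_pos ⟨h, h'⟩]
      omega
    · rw [if_neg (fun h'' => h (e.1 h'')), if_neg (fun h'' => h h''.1)]
  · rw [if_neg (fun h'' => h' (e'.1 h'')), if_neg (fun h'' => h' h''.2)]

theorem main {n : ℕ} (H : Finset (Finset (Fin n))) (hH : ∀ e ∈ H, e.card = 3)
    (hF : ∀ S : Finset (Fin n), S.card = 4 → ∃ e ⊆ S, e.card = 3 ∧ e ∉ H) :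
    54 * n ^ 2 * H.card ≤ 5 * n ^ 5 + 122 * excess H := by
  have h := Ct.main hH hF
  rw [viol, Fintype.card_fin] at h
  exact_mod_cast h

theorem stable {n : ℕ} (H : Finset (Finset (Fin n))) (hH : ∀ e ∈ H, e.card = 3)
    (hF : ∀ S : Finset (Fin n), S.card = 4 → ∃ e ⊆ S, e.card = 3 ∧ e ∉ H)
    (hS : ∀ x y z w, OnlyEdge H x y z w → Linked H x y z w →
      codeg H x w + codeg H y w ≤ codeg H x z + codeg H y z) :
    54 * H.card ≤ 5 * n ^ 3 := by
  have h := main H hH hF
  have h0 : excess H = 0 := by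
    unfold excess
    refine sum_eq_zero fun x _ => sum_eq_zero fun y _ => sum_eq_zero fun z _ =>
      sum_eq_zero fun w _ => ?_
    split_ifs with hg
    · exact Nat.sub_eq_zero_of_le (hS x y z w hg.1 hg.2)
    · rfl
  rw [h0] at h
  rcases Nat.eq_zero_or_pos n with rfl | hn
  · have : H = ∅ := by
      rw [Finset.eq_empty_iff_forall_notMem]
      intro e he
      have h3 := hH e he
      have : e.card ≤ 0 := by
        have := Finset.card_le_univ e
        simpa using this
      omega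
    rw [this]
    simp
  · have h2 : n ^ 2 * (54 * H.card) ≤ n ^ 2 * (5 * n ^ 3) := by nlinarith [h]
    exact Nat.le_of_mul_le_mul_left h2 (by positivity)

end Pool.Agent.H42SW.Res
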