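import Pool.Agent.H42SW.Defs

/-! The sum of the additional term of the six-vertex flags over all six-tuples is bounded below
by means of the violations of the degree condition (helper42's project; this part by helper20). -/

set_option autoImplicit false
set_option maxRecDepth 100000
set_option maxHeartbeats 4000000
open Finset

namespace Pool.Agent.H42SW
open Pool.Agent.H122R2.N6 Pool.Agent.H37R3.Pen

/-- the sum of the violations of the degree condition -/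
def Viol {V : Type} [Fintype V] (E : V → V → V → ℕ) : ℤ :=
  ∑ x, ∑ y, ∑ z, ∑ w, if E x y z = 1 ∧ E x y w = 0 ∧ E x z w = 0 ∧ E y z w = 0 then
    max 0 (∑ u, (E x w u : ℤ) + ∑ u, (E y w u : ℤ) - ∑ u, (E x z u : ℤ) - ∑ u, (E y z u : ℤ)) else 0

section
variable {V : Type} [Fintype V]

theorem gd_true {xyz xyw xzw yzw xwv ywv zwv : ℕ} (h : gd xyz xyw xzw yzw xwv ywv zwv = true) :
    xyz = 1 ∧ xyw = 0 ∧ xzw = 0 ∧ yzw = 0 := by
  unfold gd at h
  simp only [Bool.and_eq_true] at h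
  obtain ⟨h1, h2, _⟩ := h
  have e1 := Nat.eq_of_beq_eq_true h1
  have e2 : xyw + (xzw + yzw) = 0 := Nat.eq_of_beq_eq_true h2
  omega

theorem mo_off {A B O xyz xyw xzw yzw xwv ywv zwv : ℕ} (h : gd xyz xyw xzw yzw xwv ywv zwv = false)
    (xyv xzv yzv xyu xzu yzu xwu ywu zwu : ℕ) :
    mo A B O xyz xyw xzw yzw xyv xzv yzv xwv ywv zwv xyu xzu yzu xwu ywu zwu = O := by
  unfold mo
  rw [h]
  rfl

/-- the common shape of the two nontrivial cases -/
theorem val_cast {B O : ℕ} (p q r : ℕ) (hp : p + (q + r) = 1)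
    (xyu xzu yzu xwu ywu zwu : ℕ) (hB : 4 * B ≤ O) (h1 : Bt xwu) (h2 : Bt ywu) (h3 : Bt zwu) :
    ((O + B * (xyu + (xzu + yzu) + (p * xyu + (q * xzu + r * yzu)))
      - B * (xwu + (ywu + zwu) + (p * zwu + (q * ywu + r * xwu))) : ℕ) : ℤ)
      = O + B * (xyu + xzu + yzu + (p * xyu + q * xzu + r * yzu))
          - B * (xwu + ywu + zwu + (p * zwu + q * ywu + r * xwu)) := by
  have l1 := Bt_lt h1
  have l2 := Bt_lt h2
  have l3 := Bt_lt h3
  have hle : B * (xwu + (ywu + zwu) + (p * zwu + (q * ywu + r * xwu)))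
      ≤ O + B * (xyu + (xzu + yzu) + (p * xyu + (q * xzu + r * yzu))) := by
    have k1 : p * zwu ≤ p := by
      calc p * zwu ≤ p * 1 := Nat.mul_le_mul_left _ (by omega)
        _ = p := mul_one p
    have k2 : q * ywu ≤ q := by
      calc q * ywu ≤ q * 1 := Nat.mul_le_mul_left _ (by omega)
        _ = q := mul_one q
    have k3 : r * xwu ≤ r := by
      calc r * xwu ≤ r * 1 := Nat.mul_le_mul_left _ (by omega)
        _ = r := mul_one r
    have : B * (xwu + (ywu + zwu) + (p * zwu + (q * ywu + r * xwu))) ≤ B * 4 :=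
      Nat.mul_le_mul_left _ (by omega)
    omega
  push_cast [Nat.cast_sub hle]
  ring

theorem mo_1 {A B O xyz xyw xzw yzw xwv ywv zwv : ℕ} (h : gd xyz xyw xzw yzw xwv ywv zwv = true)
    (p q r : ℕ) (hp : p + (q + r) = 1)
    (xyu xzu yzu xwu ywu zwu : ℕ) (hB : 4 * B ≤ O) (h1 : Bt xwu) (h2 : Bt ywu) (h3 : Bt zwu) :
    (mo A B O xyz xyw xzw yzw p q r xwv ywv zwv xyu xzu yzu xwu ywu zwu : ℤ)
      = O + B * (xyu + xzu + yzu + (p * xyu + q * xzu + r * yzu))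
          - B * (xwu + ywu + zwu + (p * zwu + q * ywu + r * xwu)) := by
  rw [← val_cast p q r hp xyu xzu yzu xwu ywu zwu hB h1 h2 h3]
  congr 1
  unfold mo
  have b1 : Nat.beq (Nat.add p (Nat.add q r)) 1 = true := by
    have : Nat.add p (Nat.add q r) = 1 := hp
    rw [this]
    rfl
  rw [h, b1]
  rfl

theorem mo_2 {A B O xyz xyw xzw yzw xwv ywv zwv : ℕ} (h : gd xyz xyw xzw yzw xwv ywv zwv = true)
    (p q r : ℕ) (hp2 : p + (q + r) = 2) (hp : (1 - p) + ((1 - q) + (1 - r)) = 1)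
    (xyu xzu yzu xwu ywu zwu : ℕ) (hA : 4 * A ≤ O) (h1 : Bt xwu) (h2 : Bt ywu) (h3 : Bt zwu) :
    (mo A B O xyz xyw xzw yzw p q r xwv ywv zwv xyu xzu yzu xwu ywu zwu : ℤ)
      = O + A * (xyu + xzu + yzu + ((1 - p : ℕ) * xyu + (1 - q : ℕ) * xzu + (1 - r : ℕ) * yzu))
          - A * (xwu + ywu + zwu + ((1 - p : ℕ) * zwu + (1 - q : ℕ) * ywu + (1 - r : ℕ) * xwu)) := by
  rw [← val_cast (1 - p) (1 - q) (1 - r) hp xyu xzu yzu xwu ywu zwu hA h1 h2 h3]
  congr 1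
  unfold mo
  have b1 : Nat.beq (Nat.add p (Nat.add q r)) 1 = false := by
    have : Nat.add p (Nat.add q r) = 2 := hp2
    rw [this]
    rfl
  have b2 : Nat.beq (Nat.add p (Nat.add q r)) 2 = true := by
    have : Nat.add p (Nat.add q r) = 2 := hp2
    rw [this]
    rfl
  rw [h, b1, b2]
  rfl

theorem mo_3 {A B O xyz xyw xzw yzw xwv ywv zwv : ℕ} (p q r : ℕ) (hp1 : p + (q + r) ≠ 1)
    (hp2 : p + (q + r) ≠ 2) (xyu xzu yzu xwu ywu zwu : ℕ) :
    mo A B O xyz xyw xzw yzw p q r xwv ywv zwv xyu xzu yzu xwu ywu zwu = O := by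
  unfold mo
  have b1 : Nat.beq (Nat.add p (Nat.add q r)) 1 = false := by
    rw [← Bool.not_eq_true]
    exact fun h => hp1 (Nat.eq_of_beq_eq_true h)
  have b2 : Nat.beq (Nat.add p (Nat.add q r)) 2 = false := by
    rw [← Bool.not_eq_true]
    exact fun h => hp2 (Nat.eq_of_beq_eq_true h)
  rw [b1, b2]
  cases gd xyz xyw xzw yzw xwv ywv zwv <;> rfl

theorem inner_sum (A B O R : ℕ) (hA : 4 * A ≤ O) (hB : 4 * B ≤ O) (hRA : A ≤ R) (hRB : B ≤ R)
    (xyz xyw xzw yzw xyv xzv yzv xwv ywv zwv : ℕ) (h1 : Bt xyv) (h2 : Bt xzv) (h3 : Bt yzv)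
    (xy xz yz xw yw zw : V → ℕ) (k1 : ∀ u, Bt (xw u)) (k2 : ∀ u, Bt (yw u)) (k3 : ∀ u, Bt (zw u)) :
    (O : ℤ) * (Fintype.card V : ℤ) ≤
      ∑ u, (mo A B O xyz xyw xzw yzw xyv xzv yzv xwv ywv zwv (xy u) (xz u) (yz u) (xw u) (yw u)
        (zw u) : ℤ)
      + R * ((if xyz = 1 ∧ xyw = 0 ∧ xzw = 0 ∧ yzw = 0 then
            max 0 (∑ u, (xw u : ℤ) + ∑ u, (yw u : ℤ) - ∑ u, (xz u : ℤ) - ∑ u, (yz u : ℤ)) else 0)
          + (if xyz = 1 ∧ xyw = 0 ∧ xzw = 0 ∧ yzw = 0 then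
            max 0 (∑ u, (xw u : ℤ) + ∑ u, (zw u : ℤ) - ∑ u, (xy u : ℤ) - ∑ u, (yz u : ℤ)) else 0)
          + (if xyz = 1 ∧ xyw = 0 ∧ xzw = 0 ∧ yzw = 0 then
            max 0 (∑ u, (yw u : ℤ) + ∑ u, (zw u : ℤ) - ∑ u, (xy u : ℤ) - ∑ u, (xz u : ℤ)) else 0)) := by
  have hpos : (0 : ℤ) ≤ R * ((if xyz = 1 ∧ xyw = 0 ∧ xzw = 0 ∧ yzw = 0 then
            max 0 (∑ u, (xw u : ℤ) + ∑ u, (yw u : ℤ) - ∑ u, (xz u : ℤ) - ∑ u, (yz u : ℤ)) else 0)
          + (if xyz = 1 ∧ xyw = 0 ∧ xzw = 0 ∧ yzw = 0 then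
            max 0 (∑ u, (xw u : ℤ) + ∑ u, (zw u : ℤ) - ∑ u, (xy u : ℤ) - ∑ u, (yz u : ℤ)) else 0)
          + (if xyz = 1 ∧ xyw = 0 ∧ xzw = 0 ∧ yzw = 0 then
            max 0 (∑ u, (yw u : ℤ) + ∑ u, (zw u : ℤ) - ∑ u, (xy u : ℤ) - ∑ u, (xz u : ℤ)) else 0)) := by
    refine mul_nonneg (Int.natCast_nonneg _) (add_nonneg (add_nonneg ?_ ?_) ?_) <;>
    · split_ifs
      · exact le_max_left _ _
      · exact le_refl _
  have hconst : ∑ _u : V, (O : ℤ) = (O : ℤ) * (Fintype.card V : ℤ) := by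
    rw [sum_const, card_univ, nsmul_eq_mul, mul_comm]
  cases hg : gd xyz xyw xzw yzw xwv ywv zwv with
  | false =>
    have e : ∑ u, (mo A B O xyz xyw xzw yzw xyv xzv yzv xwv ywv zwv (xy u) (xz u) (yz u) (xw u) (yw u)
        (zw u) : ℤ) = (O : ℤ) * (Fintype.card V : ℤ) := by
      rw [← hconst]
      exact sum_congr rfl fun u _ => by rw [mo_off hg]
    rw [e]
    linarith
  | true =>
    by_cases h2' : xyv + (xzv + yzv) ≠ 1 ∧ xyv + (xzv + yzv) ≠ 2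
    · have e : ∑ u, (mo A B O xyz xyw xzw yzw xyv xzv yzv xwv ywv zwv (xy u) (xz u) (yz u) (xw u) (yw u)
          (zw u) : ℤ) = (O : ℤ) * (Fintype.card V : ℤ) := by
        rw [← hconst]
        exact sum_congr rfl fun u _ => by rw [mo_3 _ _ _ h2'.1 h2'.2]
      rw [e]
      linarith
    · have hgt := gd_true hg
      rw [if_pos hgt, if_pos hgt, if_pos hgt]
      have hRA' : (A : ℤ) ≤ R := by exact_mod_cast hRA
      have hRB' : (B : ℤ) ≤ R := by exact_mod_cast hRB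
      have hA0 : (0 : ℤ) ≤ A := Int.natCast_nonneg _
      have hB0 : (0 : ℤ) ≤ B := Int.natCast_nonneg _
      have m1 := le_max_left (0 : ℤ) (∑ u, (xw u : ℤ) + ∑ u, (yw u : ℤ) - ∑ u, (xz u : ℤ) - ∑ u, (yz u : ℤ))
      have m2 := le_max_left (0 : ℤ) (∑ u, (xw u : ℤ) + ∑ u, (zw u : ℤ) - ∑ u, (xy u : ℤ) - ∑ u, (yz u : ℤ))
      have m3 := le_max_left (0 : ℤ) (∑ u, (yw u : ℤ) + ∑ u, (zw u : ℤ) - ∑ u, (xy u : ℤ) - ∑ u, (xz u : ℤ))
      have n1 := le_max_right (0 : ℤ) (∑ u, (xw u : ℤ) + ∑ u, (yw u : ℤ) - ∑ u, (xz u : ℤ) - ∑ u, (yz u : ℤ))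
      have n2 := le_max_right (0 : ℤ) (∑ u, (xw u : ℤ) + ∑ u, (zw u : ℤ) - ∑ u, (xy u : ℤ) - ∑ u, (yz u : ℤ))
      have n3 := le_max_right (0 : ℤ) (∑ u, (yw u : ℤ) + ∑ u, (zw u : ℤ) - ∑ u, (xy u : ℤ) - ∑ u, (xz u : ℤ))
      set M1 : ℤ := max 0 (∑ u, (xw u : ℤ) + ∑ u, (yw u : ℤ) - ∑ u, (xz u : ℤ) - ∑ u, (yz u : ℤ)) with hM1
      set M2 : ℤ := max 0 (∑ u, (xw u : ℤ) + ∑ u, (zw u : ℤ) - ∑ u, (xy u : ℤ) - ∑ u, (yz u : ℤ)) with hM2
      set M3 : ℤ := max 0 (∑ u, (yw u : ℤ) + ∑ u, (zw u : ℤ) - ∑ u, (xy u : ℤ) - ∑ u, (xz u : ℤ)) with hM3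
      clear_value M1 M2 M3
      have a1 := mul_le_mul_of_nonneg_right hRA' m1
      have a2 := mul_le_mul_of_nonneg_right hRA' m2
      have a3 := mul_le_mul_of_nonneg_right hRA' m3
      have b1 := mul_le_mul_of_nonneg_right hRB' m1
      have b2 := mul_le_mul_of_nonneg_right hRB' m2
      have b3 := mul_le_mul_of_nonneg_right hRB' m3
      have c1 := mul_le_mul_of_nonneg_left n1 hA0
      have c2 := mul_le_mul_of_nonneg_left n2 hA0
      have c3 := mul_le_mul_of_nonneg_left n3 hA0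
      have d1 := mul_le_mul_of_nonneg_left n1 hB0
      have d2 := mul_le_mul_of_nonneg_left n2 hB0
      have d3 := mul_le_mul_of_nonneg_left n3 hB0
      have f1 := mul_nonneg hB0 m1
      have f2 := mul_nonneg hB0 m2
      have f3 := mul_nonneg hB0 m3
      have g1 := mul_nonneg hA0 m1
      have g2 := mul_nonneg hA0 m2
      have g3 := mul_nonneg hA0 m3
      by_cases h1' : xyv + (xzv + yzv) = 1
      · have e : ∑ u, (mo A B O xyz xyw xzw yzw xyv xzv yzv xwv ywv zwv (xy u) (xz u) (yz u) (xw u) (yw u)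
            (zw u) : ℤ) = (O : ℤ) * (Fintype.card V : ℤ)
            + B * (∑ u, (xy u : ℤ) + ∑ u, (xz u : ℤ) + ∑ u, (yz u : ℤ)
                + (xyv * ∑ u, (xy u : ℤ) + xzv * ∑ u, (xz u : ℤ) + yzv * ∑ u, (yz u : ℤ)))
            - B * (∑ u, (xw u : ℤ) + ∑ u, (yw u : ℤ) + ∑ u, (zw u : ℤ)
                + (xyv * ∑ u, (zw u : ℤ) + xzv * ∑ u, (yw u : ℤ) + yzv * ∑ u, (xw u : ℤ))) := by
          simp only [← hconst, ← sum_add_distrib, mul_sum, ← sum_sub_distrib]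
          exact sum_congr rfl fun u _ => by
            rw [mo_1 hg _ _ _ h1' _ _ _ _ _ _ hB (k1 u) (k2 u) (k3 u)]
        rw [e]
        rcases h1 with rfl | rfl
        · rcases h2 with rfl | rfl
          · obtain rfl : yzv = 1 := by omega
            push_cast
            linarith
          · obtain rfl : yzv = 0 := by omega
            push_cast
            linarith
        · obtain ⟨rfl, rfl⟩ : xzv = 0 ∧ yzv = 0 := by omega
          push_cast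
          linarith
      · have h1'' : xyv + (xzv + yzv) = 2 := by
          by_contra hne
          exact h2' ⟨h1', hne⟩
        have l1 := Bt_lt h1
        have l2 := Bt_lt h2
        have l3 := Bt_lt h3
        have hc : (1 - xyv) + ((1 - xzv) + (1 - yzv)) = 1 := by omega
        have e : ∑ u, (mo A B O xyz xyw xzw yzw xyv xzv yzv xwv ywv zwv (xy u) (xz u) (yz u) (xw u) (yw u)
            (zw u) : ℤ) = (O : ℤ) * (Fintype.card V : ℤ)
            + A * (∑ u, (xy u : ℤ) + ∑ u, (xz u : ℤ) + ∑ u, (yz u : ℤ)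
                + ((1 - xyv : ℕ) * ∑ u, (xy u : ℤ) + (1 - xzv : ℕ) * ∑ u, (xz u : ℤ)
                  + (1 - yzv : ℕ) * ∑ u, (yz u : ℤ)))
            - A * (∑ u, (xw u : ℤ) + ∑ u, (yw u : ℤ) + ∑ u, (zw u : ℤ)
                + ((1 - xyv : ℕ) * ∑ u, (zw u : ℤ) + (1 - xzv : ℕ) * ∑ u, (yw u : ℤ)
                  + (1 - yzv : ℕ) * ∑ u, (xw u : ℤ))) := by
          simp only [← hconst, ← sum_add_distrib, mul_sum, ← sum_sub_distrib]
          exact sum_congr rfl fun u _ => by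
            rw [mo_2 hg _ _ _ h1'' hc _ _ _ _ _ _ hA (k1 u) (k2 u) (k3 u)]
        rw [e]
        rcases h1 with rfl | rfl
        · obtain ⟨rfl, rfl⟩ : xzv = 1 ∧ yzv = 1 := by omega
          push_cast
          linarith
        · rcases h2 with rfl | rfl
          · obtain rfl : yzv = 1 := by omega
            push_cast
            linarith
          · obtain rfl : yzv = 0 := by omega
            push_cast
            linarith

/-- the term of the violation sum -/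
def vt (E : V → V → V → ℕ) (x y z w : V) : ℤ :=
  if E x y z = 1 ∧ E x y w = 0 ∧ E x z w = 0 ∧ E y z w = 0 then
    max 0 (∑ u, (E x w u : ℤ) + ∑ u, (E y w u : ℤ) - ∑ u, (E x z u : ℤ) - ∑ u, (E y z u : ℤ)) else 0

theorem Viol_eq (E : V → V → V → ℕ) : Viol E = ∑ x, ∑ y, ∑ z, ∑ w, vt E x y z w := rfl

theorem inner_Mo {E : V → V → V → ℕ} (hE : Sy E) (A B O : ℕ) (hA : 4 * A ≤ O) (hB : 4 * B ≤ O)
    (R : ℕ) (hRA : A ≤ R) (hRB : B ≤ R) (x y z w v : V) :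
    (O : ℤ) * (Fintype.card V : ℤ) ≤ ∑ u, (Mo E A B O x y z w v u : ℤ)
      + R * (vt E x y z w + vt E x z y w + vt E y z x w) := by
  have h := inner_sum A B O R hA hB hRA hRB (E x y z) (E x y w) (E x z w) (E y z w) (E x y v)
    (E x z v) (E y z v) (E x w v) (E y w v) (E z w v) (hE.b _ _ _) (hE.b _ _ _) (hE.b _ _ _)
    (fun u => E x y u) (fun u => E x z u) (fun u => E y z u) (fun u => E x w u)
    (fun u => E y w u) (fun u => E z w u) (fun u => hE.b _ _ _) (fun u => hE.b _ _ _)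
    (fun u => hE.b _ _ _)
  have e2 : vt E x z y w = if E x y z = 1 ∧ E x y w = 0 ∧ E x z w = 0 ∧ E y z w = 0 then
      max 0 (∑ u, (E x w u : ℤ) + ∑ u, (E z w u : ℤ) - ∑ u, (E x y u : ℤ) - ∑ u, (E y z u : ℤ)) else 0 := by
    unfold vt
    have q1 : E x z y = E x y z := hE.h132 x y z
    have q2 : E z y w = E y z w := hE.h213 y z w
    have q3 : ∀ u, E z y u = E y z u := fun u => hE.h213 y z u
    simp only [q1, q2, q3]
    have q4 : (E x y z = 1 ∧ E x z w = 0 ∧ E x y w = 0 ∧ E y z w = 0)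
        ↔ (E x y z = 1 ∧ E x y w = 0 ∧ E x z w = 0 ∧ E y z w = 0) := by tauto
    exact if_congr q4 rfl rfl
  have e3 : vt E y z x w = if E x y z = 1 ∧ E x y w = 0 ∧ E x z w = 0 ∧ E y z w = 0 then
      max 0 (∑ u, (E y w u : ℤ) + ∑ u, (E z w u : ℤ) - ∑ u, (E x y u : ℤ) - ∑ u, (E x z u : ℤ)) else 0 := by
    unfold vt
    have q1 : E y z x = E x y z := hE.h231 x y z
    have q2 : ∀ u, E y x u = E x y u := fun u => hE.h213 x y u
    have q3 : ∀ u, E z x u = E x z u := fun u => hE.h213 x z u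
    simp only [q1, q2, q3]
    have q4 : (E x y z = 1 ∧ E y z w = 0 ∧ E x y w = 0 ∧ E x z w = 0)
        ↔ (E x y z = 1 ∧ E x y w = 0 ∧ E x z w = 0 ∧ E y z w = 0) := by tauto
    exact if_congr q4 rfl rfl
  rw [e2, e3]
  exact h

theorem sum_Mo {E : V → V → V → ℕ} (hE : Sy E) (A B O : ℕ) (hA : 4 * A ≤ O) (hB : 4 * B ≤ O)
    (R : ℕ) (hRA : A ≤ R) (hRB : B ≤ R) :
    (O : ℤ) * (Fintype.card V : ℤ) ^ 6 ≤
      (∑ x : Fin 6 → V, (Mo E A B O (x 0) (x 1) (x 2) (x 3) (x 4) (x 5) : ℤ))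
        + 3 * R * (Fintype.card V : ℤ) * Viol E := by
  rw [conv6 (fun a b c d e f => (Mo E A B O a b c d e f : ℤ))]
  have h1 : ∑ x : V, ∑ y : V, ∑ z : V, ∑ w : V, ∑ _v : V, (O : ℤ) * (Fintype.card V : ℤ)
      ≤ ∑ x, ∑ y, ∑ z, ∑ w, ∑ v, (∑ u, (Mo E A B O x y z w v u : ℤ)
        + R * (vt E x y z w + vt E x z y w + vt E y z x w)) :=
    sum_le_sum fun x _ => sum_le_sum fun y _ => sum_le_sum fun z _ => sum_le_sum fun w _ =>
      sum_le_sum fun v _ => inner_Mo hE A B O hA hB R hRA hRB x y z w v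
  have h2 : ∑ x : V, ∑ y : V, ∑ z : V, ∑ w : V, ∑ _v : V, (O : ℤ) * (Fintype.card V : ℤ)
      = (O : ℤ) * (Fintype.card V : ℤ) ^ 6 := by
    simp only [sum_const, card_univ, nsmul_eq_mul]
    ring
  have s2 : ∑ x, ∑ y, ∑ z, ∑ w, vt E x z y w = Viol E := by
    rw [Viol_eq]
    refine sum_congr rfl fun x _ => ?_
    rw [sum_comm]
  have s3 : ∑ x, ∑ y, ∑ z, ∑ w, vt E y z x w = Viol E := by
    rw [Viol_eq, sum_comm]
    refine sum_congr rfl fun x _ => ?_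
    rw [sum_comm]
  have h3 : ∑ x, ∑ y, ∑ z, ∑ w, ∑ v, (∑ u, (Mo E A B O x y z w v u : ℤ)
        + R * (vt E x y z w + vt E x z y w + vt E y z x w))
      = ∑ x, ∑ y, ∑ z, ∑ w, ∑ v, ∑ u, (Mo E A B O x y z w v u : ℤ)
        + R * (Fintype.card V : ℤ) * (∑ x, ∑ y, ∑ z, ∑ w, vt E x y z w
          + ∑ x, ∑ y, ∑ z, ∑ w, vt E x z y w + ∑ x, ∑ y, ∑ z, ∑ w, vt E y z x w) := by
    simp only [sum_add_distrib, mul_add, mul_sum, sum_const, card_univ, nsmul_eq_mul]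
    have : ∀ t : ℤ, (Fintype.card V : ℤ) * ((R : ℤ) * t) = (R : ℤ) * (Fintype.card V : ℤ) * t := by
      intro t; ring
    simp only [this]
  rw [s2, s3, ← Viol_eq] at h3
  rw [h2, h3] at h1
  linarith

theorem Viol_zero {E : V → V → V → ℕ}
    (h : ∀ x y z w, E x y z = 1 → E x y w = 0 → E x z w = 0 → E y z w = 0 →
      ∑ u, E x w u + ∑ u, E y w u ≤ ∑ u, E x z u + ∑ u, E y z u) : Viol E = 0 := by
  unfold Viol
  refine sum_eq_zero fun x _ => sum_eq_zero fun y _ => sum_eq_zero fun z _ =>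
    sum_eq_zero fun w _ => ?_
  split_ifs with hg
  · have h' := h x y z w hg.1 hg.2.1 hg.2.2.1 hg.2.2.2
    have h'' : (∑ u, (E x w u : ℤ)) + ∑ u, (E y w u : ℤ) ≤ ∑ u, (E x z u : ℤ) + ∑ u, (E y z u : ℤ) := by
      exact_mod_cast h'
    exact max_eq_left (by linarith)
  · rfl

end

end Pool.Agent.H42SW
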